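import Pool.Agent.R505.SM.Key
import Pool.Agent.R505.SM.Count
import Pool.Agent.R66.BX.Points
import Pool.Agent.H932R3.Finals

set_option autoImplicit false

/-!
# The general member is smooth for almost all classes

Linear systems `(d; w) = |d H - ∑ w i E i|` of plane curves with general multiple points,
`χ = (d + 2).choose 2 - ∑ (w i + 1).choose 2`. A class is *settled* if the system is empty, or of the
expected dimension `χ - 1 ≥ 0` with a general member which is smooth on the blow-up.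

* For every vector `w` of multiplicities, for general points (outside of one hypersurface for all
  degrees): all classes with `25000 (μ + 3) ^ 2 ≤ ∑ w i + 4 |χ|`, `w i ≤ μ`, are settled but those
  with `0 < χ ≤ max w i`; there are at most `159 (μ + 3)` degrees which are not settled, and at most one
  if `25000 (μ + 3) ^ 2 ≤ ∑ w i`.
* For product boxes `1 ≤ d ≤ D`, `w i ∈ A i`, with arbitrary finite sets `A i` of numbers `≤ μ`, at
  most the proportion `10 ^ 7 / N + 5 / (μ √N)` of the classes is not settled, `N` the effective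
  number of the points (`n / 3` or more if `A i = {0, …, μ}`), at all points with algebraically
  independent coordinates and at the explicit points `exp (2 ^ (k / (2 n)))`.

The nonspeciality is the starting theorem `Pool.Agent.Y205.AV.big_vectors`. The smoothness comes from
the argument with moving points (`Pool.Agent.H248R6.open_main`), whose hypotheses (surjectivity of the
evaluation for `(d; w)`, for `(d; w + e_k)` and for `(d - 1; w - 1)`) are checked with
`big_vectors` for the class and its neighbours (`Pool/Agent/R505/SM/Key.lean`); the number of the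
remaining classes in a box is estimated in `Pool/Agent/R505/SM/Count.lean` with the counting lemma of
`Pool.Agent.R66.BX.Box`.
-/

namespace Pool.Agent.Results.MP_0421d9_ag.AlmostAllClasses

open MvPolynomial Pool.Agent.H248R5
open Pool.Agent.R505.SM (chi)

/-- The assertion of Q1, in a strong form, for the class `(d; w)`, at the points `(P i 0 : P i 1 : 1)`: the linear
system is empty, or its dimension is the expected one (the space of forms has dimension `χ(d; w) > 0`)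
and its general member is a smooth curve on the blow-up. -/
def Settled {n : ℕ} (P : Fin n → Fin 2 → ℂ) (d : ℕ) (w : Fin n → ℕ) : Prop :=
  forms w P d = ⊥ ∨ (0 < chi d w ∧ (Module.finrank ℂ ↥(forms w P d) : ℤ) = chi d w ∧
    GeneralMember (forms w P d) (SmoothMember w P))

/-- All classes `(d; w)` with `25000 (μ + 3) ^ 2 ≤ ∑ w i + 4 |χ|` are settled, unless
`0 < χ ≤ max w i`. -/
def LargeSettled {n : ℕ} (P : Fin n → Fin 2 → ℂ) (w : Fin n → ℕ) (μ : ℕ) : Prop :=
  ∀ d : ℕ, 1 ≤ d → 25000 * ((μ : ℤ) + 3) ^ 2 ≤ ∑ i, (w i : ℤ) + 4 * |chi d w| →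
    (chi d w ≤ 0 ∨ ∀ k, (w k : ℤ) < chi d w) → Settled P d w

/-- The degrees `d ≥ 1` in which the class `(d; w)` is not settled: there are at most `159 (μ + 3)` of
them, `(d' - d) (d + d' + 3) < 25000 (μ + 3) ^ 2` for any two of them, and there is at most one if
`25000 (μ + 3) ^ 2 ≤ ∑ w i`. -/
def FewDegrees {n : ℕ} (P : Fin n → Fin 2 → ℂ) (w : Fin n → ℕ) (μ : ℕ) : Prop :=
  {d : ℕ | 1 ≤ d ∧ ¬ Settled P d w}.Finite ∧
  {d : ℕ | 1 ≤ d ∧ ¬ Settled P d w}.ncard ≤ 159 * (μ + 3) ∧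
  (∀ d d' : ℕ, 1 ≤ d → d ≤ d' → ¬ Settled P d w → ¬ Settled P d' w →
    ((d' : ℤ) - d) * (d + d' + 3) < 25000 * ((μ : ℤ) + 3) ^ 2) ∧
  (25000 * ((μ : ℤ) + 3) ^ 2 ≤ ∑ i, (w i : ℤ) →
    ∀ d d' : ℕ, 1 ≤ d → d ≤ d' → ¬ Settled P d w → ¬ Settled P d' w → d = d')

/-- The classes `(d; w)` with `1 ≤ d ≤ D` and `w i ∈ A i`. -/
def box {n : ℕ} (D : ℕ) (A : Fin n → Finset ℕ) : Set (ℕ × (Fin n → ℕ)) :=
  {x | 1 ≤ x.1 ∧ x.1 ≤ D ∧ ∀ i, x.2 i ∈ A i}

/-- The effective number of points: the sum over `i` of the mean value of `(a / μ) ^ 2`, `a ∈ A i`. -/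
noncomputable def effective {n : ℕ} (μ : ℕ) (A : Fin n → Finset ℕ) : ℝ :=
  (∑ i, (∑ a ∈ A i, (a : ℝ) ^ 2) / ((A i).card : ℝ)) / (μ : ℝ) ^ 2

/-- At most the proportion `κ` of the classes in the box is not settled; if `D ≥ 4 μ √n`, their number
is also at most `2 κ` times the number of the classes in the box with positive `χ` (all these linear
systems are nonempty). -/
def FewOpen {n : ℕ} (P : Fin n → Fin 2 → ℂ) (μ D : ℕ) (A : Fin n → Finset ℕ) (κ : ℝ) : Prop :=
  (Set.ncard {x ∈ box D A | ¬ Settled P x.1 x.2} : ℝ) ≤ κ * Set.ncard (box D A) ∧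
  (4 * (μ : ℝ) * √n ≤ D → (Set.ncard {x ∈ box D A | ¬ Settled P x.1 x.2} : ℝ) ≤
    2 * κ * Set.ncard {x ∈ box D A | 0 < chi x.1 x.2})

theorem box_eq {n : ℕ} (D : ℕ) (A : Fin n → Finset ℕ) : box D A = Pool.Agent.R66.BX.box D A := rfl

/-- a class which is not settled is in the window, or has `0 < χ ≤ μ` -/
theorem LargeSettled.window {n : ℕ} {P : Fin n → Fin 2 → ℂ} {w : Fin n → ℕ} {μ : ℕ}
    (h : LargeSettled P w μ) (hμ : ∀ i, w i ≤ μ) {d : ℕ} (hd : 1 ≤ d) (hs : ¬ Settled P d w) :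
    ∑ i, (w i : ℤ) + 4 * |chi d w| < 25000 * ((μ : ℤ) + 3) ^ 2 ∨
      (0 < chi d w ∧ chi d w ≤ μ) := by
  by_contra hcon
  push Not at hcon
  apply hs
  refine h d hd hcon.1 ?_
  rcases le_or_gt (chi d w) 0 with h1 | h1
  · exact Or.inl h1
  · right
    intro k
    have h2 := hcon.2 h1
    have h3 : (w k : ℤ) ≤ μ := by exact_mod_cast hμ k
    linarith

/-- at most one degree if the multiplicities have a large sum -/
theorem LargeSettled.one {n : ℕ} {P : Fin n → Fin 2 → ℂ} {w : Fin n → ℕ} {μ : ℕ}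
    (h : LargeSettled P w μ) (hμ : ∀ i, w i ≤ μ)
    (hbig : 25000 * ((μ : ℤ) + 3) ^ 2 ≤ ∑ i, (w i : ℤ)) :
    ∀ d d' : ℕ, 1 ≤ d → d ≤ d' → ¬ Settled P d w → ¬ Settled P d' w → d = d' := by
  intro d d' hd hdd hs hs'
  have hμ0 : (0 : ℤ) ≤ μ := by positivity
  have h1 : ∀ e : ℕ, 1 ≤ e → ¬ Settled P e w → 0 < chi e w ∧ chi e w ≤ μ := by
    intro e he hse
    refine (h.window hμ he hse).resolve_left ?_
    have h2 : 0 ≤ |chi e w| := abs_nonneg _
    linarith
  have h2 := h1 d hd hs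
  have h3 := h1 d' (hd.trans hdd) hs'
  refine Pool.Agent.R505.SM.uniq (μ := μ) ?_ h2.1 h2.2 h3.1 h3.2
  have h4 : ∑ i, (w i : ℤ) ≤ ∑ i, (w i : ℤ) ^ 2 := by
    refine Finset.sum_le_sum fun i _ => ?_
    rcases Nat.eq_zero_or_pos (w i) with h0 | h0
    · rw [h0]; simp
    · have : (1 : ℤ) ≤ w i := by exact_mod_cast h0
      nlinarith
  nlinarith

theorem LargeSettled.degrees {n : ℕ} {P : Fin n → Fin 2 → ℂ} {w : Fin n → ℕ} {μ : ℕ}
    (h : LargeSettled P w μ) (hμ : ∀ i, w i ≤ μ) : FewDegrees P w μ := by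
  have hμ0 : (0 : ℤ) ≤ μ := by positivity
  have hsmall : ∀ d : ℕ, 1 ≤ d → ¬ Settled P d w → 4 * |chi d w| < 25000 * ((μ : ℤ) + 3) ^ 2 := by
    intro d hd hs
    rcases h.window hμ hd hs with h1 | h1
    · have h2 : (0 : ℤ) ≤ ∑ i, (w i : ℤ) := by positivity
      linarith
    · rw [abs_of_pos h1.1]
      nlinarith [h1.2]
  have hpair : ∀ d d' : ℕ, 1 ≤ d → d ≤ d' → ¬ Settled P d w → ¬ Settled P d' w →
      ((d' : ℤ) - d) * (d + d' + 3) < 25000 * ((μ : ℤ) + 3) ^ 2 := by
    intro d d' hd hdd hs hs'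
    have h1 := hsmall d hd hs
    have h2 := hsmall d' (hd.trans hdd) hs'
    have h3 := Pool.Agent.R505.SM.chi_sub w d d'
    have h4 := abs_sub_abs_le_abs_sub (chi d' w) (chi d w)
    have h5 := le_abs_self (chi d' w)
    have h6 := neg_abs_le (chi d w)
    linarith
  have hclose : ∀ d d' : ℕ, 1 ≤ d → d ≤ d' → ¬ Settled P d w → ¬ Settled P d' w →
      d' < d + 159 * (μ + 3) := by
    intro d d' hd hdd hs hs'
    have h1 := hpair d d' hd hdd hs hs'
    by_contra hcon
    push Not at hcon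
    have h2 : (159 : ℤ) * (μ + 3) ≤ (d' : ℤ) - d := by
      have : ((d + 159 * (μ + 3) : ℕ) : ℤ) ≤ d' := by exact_mod_cast hcon
      push_cast at this
      linarith
    have h3 : (159 : ℤ) * (μ + 3) * (159 * (μ + 3)) ≤ ((d' : ℤ) - d) * (d + d' + 3) := by
      have h4 : (0 : ℤ) ≤ d := by positivity
      apply mul_le_mul h2 (by linarith) (by positivity) (by linarith)
    nlinarith
  rcases {d : ℕ | 1 ≤ d ∧ ¬ Settled P d w}.eq_empty_or_nonempty with he | hne
  · refine ⟨?_, ?_, hpair, h.one hμ⟩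
    · rw [he]
      exact Set.finite_empty
    · rw [he, Set.ncard_empty]
      exact Nat.zero_le _
  · classical
    have hmin := Nat.sInf_mem hne
    set m := sInf {d : ℕ | 1 ≤ d ∧ ¬ Settled P d w} with hm
    have hsub : {d : ℕ | 1 ≤ d ∧ ¬ Settled P d w} ⊆
        ↑(Finset.Ico m (m + 159 * (μ + 3))) := by
      intro d hd
      have h1 : m ≤ d := Nat.sInf_le hd
      exact Finset.mem_coe.2 (Finset.mem_Ico.2 ⟨h1, hclose m d hmin.1 h1 hmin.2 hd.2⟩)
    have h2 := Set.ncard_le_ncard hsub (Finset.finite_toSet _)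
    rw [Set.ncard_coe_finset, Nat.card_Ico] at h2
    exact ⟨(Finset.finite_toSet _).subset hsub, by omega, hpair, h.one hμ⟩

/-- every class outside of the window, one hypersurface for all degrees -/
theorem each {n : ℕ} (w : Fin n → ℕ) :
    ∃ F : MvPolynomial (Fin n × Fin 2) ℚ, F ≠ 0 ∧ ∀ P : Fin n → Fin 2 → ℂ,
      aeval (fun ij : Fin n × Fin 2 => P ij.1 ij.2) F ≠ 0 →
        ∀ μ : ℕ, (∀ i, w i ≤ μ) → LargeSettled P w μ := by
  classical
  -- the conditions for `μ` are weakest for the maximal multiplicity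
  obtain ⟨M, hM⟩ : ∃ M : ℕ, (∀ i, w i ≤ M) ∧ ∀ μ : ℕ, (∀ i, w i ≤ μ) → M ≤ μ :=
    ⟨Finset.univ.sup w, fun i => Finset.le_sup (Finset.mem_univ i),
      fun μ hμ => Finset.sup_le fun i _ => hμ i⟩
  obtain ⟨F, hF, hF'⟩ := Pool.Agent.R505.SM.key w M hM.1
  refine ⟨F, hF, fun P hP μ hμ d hd hbig hchi => ?_⟩
  have hMμ : (M : ℤ) ≤ μ := by exact_mod_cast hM.2 μ hμ
  have hM0 : (0 : ℤ) ≤ M := by positivity
  obtain ⟨hA, hB⟩ := hF' P hP d hd (by
    have h1 := Pool.Agent.R505.SM.two_ch d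
    have h2 : ((Pool.Agent.Y205.AV.gap w d : ℕ) : ℤ) = 2 * |chi d w| := by
      rw [Pool.Agent.R505.SM.gap_eq', ← h1]
      unfold chi
      have h3 : ∑ i, ((w i + 1).choose 2 : ℤ) = ((∑ i, (w i + 1).choose 2 : ℕ) : ℤ) := by
        push_cast
        rfl
      rw [h3]
      generalize ∑ i, (w i + 1).choose 2 = b
      generalize (d + 2).choose 2 = a
      rcases abs_cases ((a : ℤ) - (b : ℤ)) with ⟨h, h3⟩ | ⟨h, h3⟩ <;> omega
    have h4 : ((25000 * (M + 3) ^ 2 : ℕ) : ℤ) ≤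
        ((∑ i, w i + 2 * Pool.Agent.Y205.AV.gap w d : ℕ) : ℤ) := by
      push_cast
      rw [h2]
      have h5 : ((M : ℤ) + 3) ^ 2 ≤ ((μ : ℤ) + 3) ^ 2 := pow_le_pow_left₀ (by linarith) (by linarith) 2
      linarith
    exact_mod_cast h4)
  have h3 : ∑ i, ((w i + 1).choose 2 : ℤ) = ((∑ i, (w i + 1).choose 2 : ℕ) : ℤ) := by
    push_cast
    rfl
  rcases le_or_gt (chi d w) 0 with h0 | h0
  · left
    apply hA
    unfold chi at h0
    rw [h3] at h0
    omega
  · right
    have hlt : ∑ i, (w i + 1).choose 2 < (d + 2).choose 2 := by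
      unfold chi at h0
      rw [h3] at h0
      omega
    obtain ⟨h5, h6⟩ := hB hlt (fun k => by
      have h7 := hchi.resolve_left (by linarith) k
      unfold chi at h7
      rw [h3] at h7
      omega)
    refine ⟨h0, ?_, h6⟩
    unfold chi
    rw [h3]
    omega

/-- **The number of the classes in a box.** -/
theorem few {n : ℕ} {P : Fin n → Fin 2 → ℂ} {μ D : ℕ} {A : Fin n → Finset ℕ} (hμ : 1 ≤ μ)
    (hA : ∀ i, (A i).Nonempty ∧ ∀ a ∈ A i, a ≤ μ) (hN : 0 < effective μ A)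
    (h : ∀ m : Fin n → ℕ, (∀ i, m i ∈ A i) → LargeSettled P m μ) :
    FewOpen P μ D A (10 ^ 7 / effective μ A + 5 / (μ * √(effective μ A))) := by
  have hμ2 : (0 : ℝ) < (μ : ℝ) ^ 2 := by
    have : (1 : ℝ) ≤ μ := by exact_mod_cast hμ
    positivity
  have h1 := Pool.Agent.R505.SM.bad_classes (D := D) A (fun i => (hA i).1) hμ (fun i => (hA i).2)
    hN (by
      unfold effective Pool.Agent.R66.BX.mean2
      field_simp) (fun d m => ¬ Settled P d m)
    (fun m hm d hd hs => (h m hm).window (fun i => (hA i).2 _ (hm i)) hd hs)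
  refine ⟨h1, fun hD => ?_⟩
  have h2 := Pool.Agent.R505.SM.box_pos A hμ (fun i => (hA i).2) hD
  have h3 : (0 : ℝ) ≤ 10 ^ 7 / effective μ A + 5 / (μ * √(effective μ A)) := by positivity
  refine h1.trans ?_
  have h4 := mul_le_mul_of_nonneg_left h2 h3
  refine h4.trans (le_of_eq ?_)
  rw [box_eq]
  ring

/-- The squares of the numbers `0, …, M`. -/
theorem sum_sq (M : ℕ) : ∑ a ∈ Finset.range (M + 1), (a : ℝ) ^ 2 = M * (M + 1) * (2 * M + 1) / 6 := by
  induction M with
  | zero => simp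
  | succ M ih =>
    rw [Finset.sum_range_succ, ih]
    push_cast
    ring

theorem effective_box {n M : ℕ} (hM : 1 ≤ M) :
    (n : ℝ) ≤ 3 * effective M (fun _ : Fin n => Finset.range (M + 1)) := by
  have hMR : (1 : ℝ) ≤ M := by exact_mod_cast hM
  unfold effective
  simp only [sum_sq, Finset.card_range, Finset.sum_const, Finset.card_univ, Fintype.card_fin,
    nsmul_eq_mul]
  push_cast
  have h1 : (M : ℝ) * (M + 1) * (2 * M + 1) / 6 / (M + 1) = M * (2 * M + 1) / 6 := by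
    field_simp
  rw [h1]
  have h2 : 3 * ((n : ℝ) * (M * (2 * M + 1) / 6) / (M : ℝ) ^ 2) =
      n * ((2 * M + 1) / (2 * M)) := by
    field_simp
    ring
  rw [h2]
  have h3 : (1 : ℝ) ≤ (2 * M + 1) / (2 * M) := by
    rw [le_div_iff₀ (by positivity)]
    linarith
  nlinarith [Nat.cast_nonneg (α := ℝ) n]

theorem FewOpen.mono {n : ℕ} {P : Fin n → Fin 2 → ℂ} {μ D : ℕ} {A : Fin n → Finset ℕ} {κ κ' : ℝ}
    (h : FewOpen P μ D A κ) (hκ : κ ≤ κ') : FewOpen P μ D A κ' := by
  refine ⟨h.1.trans (mul_le_mul_of_nonneg_right hκ (Nat.cast_nonneg _)), fun hD =>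
    (h.2 hD).trans (mul_le_mul_of_nonneg_right (by linarith) (Nat.cast_nonneg _))⟩

/-- the numbers `0, …, M` -/
theorem few_range {n M D : ℕ} (hn : 1 ≤ n) (hM : 1 ≤ M) {P : Fin n → Fin 2 → ℂ}
    (h : ∀ m : Fin n → ℕ, (∀ i, m i ≤ M) → LargeSettled P m M) :
    FewOpen P M D (fun _ : Fin n => Finset.range (M + 1)) (3 * 10 ^ 7 / n + 9 / (M * √n)) := by
  have hMR : (1 : ℝ) ≤ M := by exact_mod_cast hM
  have hnR : (1 : ℝ) ≤ n := by exact_mod_cast hn
  have h1 := effective_box (n := n) hM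
  set N := effective M (fun _ : Fin n => Finset.range (M + 1)) with hN
  have hN0 : 0 < N := by linarith
  refine (few (μ := M) hM (fun i => ⟨⟨0, by simp⟩, fun a ha => by
    have := Finset.mem_range.1 ha
    omega⟩) hN0 (fun m hm => h m fun i => by
      have := Finset.mem_range.1 (hm i)
      omega)).mono ?_
  rw [← hN]
  have h2 : (10 : ℝ) ^ 7 / N ≤ 3 * 10 ^ 7 / n := by
    rw [div_le_div_iff₀ hN0 (by linarith)]
    nlinarith
  have h3 : 5 / ((M : ℝ) * √N) ≤ 9 / (M * √n) := by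
    have hsN : 0 < √N := Real.sqrt_pos.2 hN0
    have hsn : 0 < √(n : ℝ) := Real.sqrt_pos.2 (by linarith)
    rw [div_le_div_iff₀ (by positivity) (by positivity)]
    have h4 : 5 * √(n : ℝ) ≤ 9 * √N := by
      have h5 : (5 * √(n : ℝ)) ^ 2 ≤ (9 * √N) ^ 2 := by
        rw [mul_pow, mul_pow, Real.sq_sqrt (by linarith), Real.sq_sqrt hN0.le]
        linarith
      exact (pow_le_pow_iff_left₀ (by positivity) (by positivity) (by norm_num)).1 h5
    nlinarith
  linarith

/-- The `n` points with the affine coordinates `exp (2 ^ (k / (2 n)))`, `k = 0, 1, …, 2 n - 1`. -/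
noncomputable def explicitPoints (n : ℕ) : Fin n → Fin 2 → ℂ := fun i j =>
  Complex.exp (((2 : ℝ) ^ (((2 * (i : ℕ) + (j : ℕ) : ℕ) : ℝ) / (2 * n)) : ℝ) : ℂ)

/-- **Main result.** (1) For every vector `w` of multiplicities and `n` general points (outside of one
hypersurface for all degrees): every class `(d; w)` with `25000 (μ + 3) ^ 2 ≤ ∑ w i + 4 |χ|`,
`w i ≤ μ`, is settled unless `0 < χ ≤ max w i`, and at most `159 (μ + 3)` degrees are not settled.

(2) At all points with algebraically independent coordinates, in particular at the explicit points, (1)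
holds for all `w`, and for all `A`, `μ`, `D` at most the proportion `10 ^ 7 / N + 5 / (μ √N)` of the
classes in the box is not settled, `N` the effective number of points.

(3) For given `A`, `μ`, `D` this holds at all points outside of a hypersurface. -/
theorem result :
    (∀ (n : ℕ) (w : Fin n → ℕ), ∃ F : MvPolynomial (Fin n × Fin 2) ℂ, F ≠ 0 ∧
      ∀ P : Fin n → Fin 2 → ℂ, eval (fun ij : Fin n × Fin 2 => P ij.1 ij.2) F ≠ 0 →
        ∀ μ : ℕ, (∀ i, w i ≤ μ) → LargeSettled P w μ ∧ FewDegrees P w μ) ∧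
    (∀ n : ℕ, 1 ≤ n → ∀ P : Fin n → Fin 2 → ℂ, (P = explicitPoints n ∨
        AlgebraicIndependent ℚ (fun ij : Fin n × Fin 2 => P ij.1 ij.2)) →
      (∀ (w : Fin n → ℕ) (μ : ℕ), (∀ i, w i ≤ μ) → LargeSettled P w μ ∧ FewDegrees P w μ) ∧
      (∀ (μ D : ℕ) (A : Fin n → Finset ℕ), 1 ≤ μ → (∀ i, (A i).Nonempty ∧ ∀ a ∈ A i, a ≤ μ) →
        0 < effective μ A →
        FewOpen P μ D A (10 ^ 7 / effective μ A + 5 / (μ * √(effective μ A)))) ∧
      ∀ M D : ℕ, 1 ≤ M → FewOpen P M D (fun _ : Fin n => Finset.range (M + 1))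
        (3 * 10 ^ 7 / n + 9 / (M * √n))) ∧
    ∀ (n μ D : ℕ) (A : Fin n → Finset ℕ), 1 ≤ μ → (∀ i, (A i).Nonempty ∧ ∀ a ∈ A i, a ≤ μ) →
      0 < effective μ A →
      ∃ F : MvPolynomial (Fin n × Fin 2) ℂ, F ≠ 0 ∧ ∀ P : Fin n → Fin 2 → ℂ,
        eval (fun ij : Fin n × Fin 2 => P ij.1 ij.2) F ≠ 0 →
          FewOpen P μ D A (10 ^ 7 / effective μ A + 5 / (μ * √(effective μ A))) := by
  classical
  refine ⟨fun n w => ?_, fun n hn P hP => ?_, fun n μ D A hμ hA hN => ?_⟩
  · obtain ⟨F, hF, hF'⟩ := each w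
    refine ⟨F.map (algebraMap ℚ ℂ), Pool.Agent.H932R3.map_ne_zero_of hF, fun P hP μ hμ => ?_⟩
    rw [MvPolynomial.eval_map] at hP
    have h1 := hF' P hP μ hμ
    exact ⟨h1, h1.degrees hμ⟩
  · have hP0 : AlgebraicIndependent ℚ (fun ij : Fin n × Fin 2 => P ij.1 ij.2) := by
      rcases hP with rfl | hP
      · exact Pool.Agent.R66.BX.explicit_indep hn
      · exact hP
    have h1 : ∀ (w : Fin n → ℕ) (μ : ℕ), (∀ i, w i ≤ μ) → LargeSettled P w μ := by
      intro w μ hμ
      obtain ⟨F, hF, hF'⟩ := each w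
      exact hF' P (fun h0 => hF ((algebraicIndependent_iff.1 hP0) F h0)) μ hμ
    exact ⟨fun w μ hμ => ⟨h1 w μ hμ, (h1 w μ hμ).degrees hμ⟩,
      fun μ D A hμ hA hN => few hμ hA hN fun m hm => h1 m μ fun i => (hA i).2 _ (hm i),
      fun M D hM => few_range hn hM fun m hm => h1 m M hm⟩
  · choose F hF hF' using fun m : Fin n → ℕ => each m
    refine ⟨(∏ m ∈ Fintype.piFinset A, F m).map (algebraMap ℚ ℂ),
      Pool.Agent.H932R3.map_ne_zero_of (Finset.prod_ne_zero_iff.2 fun m _ => hF m), fun P hP => ?_⟩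
    refine few hμ hA hN fun m hm => hF' m P ?_ μ fun i => (hA i).2 _ (hm i)
    intro h0
    apply hP
    rw [MvPolynomial.eval_map]
    have h1 : MvPolynomial.aeval (fun ij : Fin n × Fin 2 => P ij.1 ij.2)
        (∏ m ∈ Fintype.piFinset A, F m) = 0 := by
      rw [map_prod]
      exact Finset.prod_eq_zero (Fintype.mem_piFinset.2 hm) h0
    exact h1

end Pool.Agent.Results.MP_0421d9_ag.AlmostAllClasses
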