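import Mathlib
import Pool.Agent.R66.BX.Smooth5

/-!
# Reduced systems with five arbitrary multiplicities: all classes off the walls

Q1 holds at general points for all classes `(d; v_1, …, v_r, a_1, …, a_5)`, `v_i < m`, outside an explicit window near the
boundary of the cone `a_i + a_j ≤ d`, `∑ a_i ≤ 2 d` and near the quadric `∑ a_i ^ 2 = d ^ 2` inside it. Hence in every closed
cone of directions which does not meet these walls Q1 holds for all but finitely many classes `(d; a_1, …, a_5)`, with all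
further multiplicities `v_i < m` simultaneously.
-/

set_option autoImplicit false

namespace Pool.Agent.Results.MP_0421d9_ag.ConesOffTheWalls

open Filter Topology Pool.Agent.R66.BX.Five Pool.Agent.R66.BX.Smooth5 Pool.Agent.H248R5

/-- Q1 for the class of degree `x.1` with the multiplicities `v` and `x.2`, for general points: if some element of the
system is squarefree, then the system has the expected dimension, and its general member is smooth on the blow-up. -/
def Q1 {r : ℕ} (v : Fin r → ℕ) (x : ℕ × (Fin 5 → ℕ)) : Prop :=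
  ∃ F : MvPolynomial (Fin (r + 5) × Fin 2) ℚ, F ≠ 0 ∧ ∀ P : Fin (r + 5) → Fin 2 → ℂ,
    MvPolynomial.aeval (fun ij : Fin (r + 5) × Fin 2 => P ij.1 ij.2) F ≠ 0 →
      (∃ f ∈ forms (Fin.append v x.2) P x.1, Squarefree f) →
        Module.finrank ℂ ↥(forms (Fin.append v x.2) P x.1) +
            ∑ i, (Fin.append v x.2 i + 1).choose 2 = (x.1 + 2).choose 2 ∧
          GeneralMember (forms (Fin.append v x.2) P x.1) (SmoothMember (Fin.append v x.2) P)

/-- The explicit exceptions: for `r` multiplicities `v_i < m` and five arbitrary ones `a_j`, the classes which lie near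
the boundary of the cone `d ≥ a_i + a_j`, `2 d ≥ ∑ a_i`, or have a small positive expected dimension. -/
def Window (m : ℕ) {r : ℕ} (v : Fin r → ℕ) (x : ℕ × (Fin 5 → ℕ)) : Prop :=
  (∀ i j, i < j → x.2 i + x.2 j < x.1 + 2) ∧ ∑ i, x.2 i < 2 * x.1 + 2 ∧
  ((∃ i j, i < j ∧ x.1 < x.2 i + x.2 j + (2 * m ^ 2 + 3 * m + 3)) ∨
    2 * x.1 < ∑ i, x.2 i + (4 * m ^ 2 + 8 * m + 7) ∨
    (∑ i, (Fin.append v x.2 i + 1).choose 2 < (x.1 + 2).choose 2 ∧
      ∃ i, (x.1 + 2).choose 2 ≤ (∑ j, (Fin.append v x.2 j + 1).choose 2) + Fin.append v x.2 i))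

/-- The directions `α = (a_1 / d, …, a_5 / d)` outside the closed cone `α_i + α_j ≤ 1`, `∑ α_i ≤ 2`, and those in its
interior which do not lie on the quadric `∑ α_i ^ 2 = 1`. -/
def OffWalls (α : Fin 5 → ℝ) : Prop :=
  (∃ i j, i < j ∧ 1 < α i + α j) ∨ 2 < ∑ i, α i ∨
    ((∀ i j, i < j → α i + α j < 1) ∧ ∑ i, α i < 2 ∧ ∑ i, α i ^ 2 ≠ 1)

/-- The direction of a class. -/
noncomputable def direction (x : ℕ × (Fin 5 → ℕ)) : Fin 5 → ℝ := fun j => (x.2 j : ℝ) / x.1

theorem q1_off_window {m r : ℕ} (hm : 1 ≤ m) {v : Fin r → ℕ} (hv : ∀ i, v i < m)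
    (x : ℕ × (Fin 5 → ℕ)) (h : ¬ Window m v x) : Q1 v x := by
  suffices hmain : ForGeneral (Q1At x.1 (Fin.append v x.2)) from hmain
  by_cases h1 : ∃ i j, i < j ∧ x.1 + 2 ≤ x.2 i + x.2 j
  · obtain ⟨i, j, hij, h2⟩ := h1
    refine line_dblN ⟨r + 1, by omega⟩ (w := Fin.append v x.2) (i := Fin.natAdd r i)
      (j := Fin.natAdd r j) (natAdd_ne hij.ne) ?_
    have e1 : Fin.append v x.2 (Fin.natAdd r i) = x.2 i := Fin.append_right _ _ _
    have e2 : Fin.append v x.2 (Fin.natAdd r j) = x.2 j := Fin.append_right _ _ _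
    calc x.1 + 2 ≤ x.2 i + x.2 j := h2
      _ = Fin.append v x.2 (Fin.natAdd r i) + Fin.append v x.2 (Fin.natAdd r j) := by rw [e1, e2]
  · push Not at h1
    by_cases h2 : 2 * x.1 + 2 ≤ ∑ i, x.2 i
    · exact conic_dbl h2
    · push Not at h2
      have h3 : ¬ ((∃ i j, i < j ∧ x.1 < x.2 i + x.2 j + (2 * m ^ 2 + 3 * m + 3)) ∨
          2 * x.1 < ∑ i, x.2 i + (4 * m ^ 2 + 8 * m + 7) ∨
          (∑ i, (Fin.append v x.2 i + 1).choose 2 < (x.1 + 2).choose 2 ∧
            ∃ i, (x.1 + 2).choose 2 ≤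
              (∑ j, (Fin.append v x.2 j + 1).choose 2) + Fin.append v x.2 i)) :=
        fun h3 => h ⟨h1, h2, h3⟩
      push Not at h3
      obtain ⟨h3, h4, h5⟩ := h3
      exact q1_of hm hv x.2 (fun i j hij => Or.inl (h3 i j hij)) (Or.inl h4) fun _ h6 i => h5 h6 i

/-- a quantitative version of `OffWalls` -/
def Off (δ : ℝ) (α : Fin 5 → ℝ) : Prop :=
  (∃ i j : Fin 5, i < j ∧ 1 + δ < α i + α j) ∨ 2 + δ < ∑ i, α i ∨
    ((∀ i j : Fin 5, i < j → α i + α j < 1 - δ) ∧ ∑ i, α i < 2 - δ ∧ δ < |∑ i, α i ^ 2 - 1|)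

lemma Off.mono {δ δ' : ℝ} (h : δ' ≤ δ) {α : Fin 5 → ℝ} (hα : Off δ α) : Off δ' α := by
  rcases hα with ⟨i, j, hij, h1⟩ | h1 | ⟨h1, h2, h3⟩
  · exact Or.inl ⟨i, j, hij, by linarith⟩
  · exact Or.inr (Or.inl (by linarith))
  · exact Or.inr (Or.inr ⟨fun i j hij => by linarith [h1 i j hij], by linarith, by linarith⟩)

lemma isOpen_off (δ : ℝ) : IsOpen {α : Fin 5 → ℝ | Off δ α} := by
  have e : {α : Fin 5 → ℝ | Off δ α} =
      (⋃ i : Fin 5, ⋃ j : Fin 5, {α : Fin 5 → ℝ | i < j ∧ 1 + δ < α i + α j}) ∪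
        ({α : Fin 5 → ℝ | 2 + δ < ∑ i, α i} ∪
          ((⋂ i : Fin 5, ⋂ j : Fin 5, {α : Fin 5 → ℝ | i < j → α i + α j < 1 - δ}) ∩
            ({α : Fin 5 → ℝ | ∑ i, α i < 2 - δ} ∩ {α : Fin 5 → ℝ | δ < |∑ i, α i ^ 2 - 1|}))) := by
    ext α
    simp only [Off, Set.mem_ofPred_eq, Set.mem_union, Set.mem_inter_iff, Set.mem_iInter,
      Set.mem_iUnion]
  rw [e]
  refine IsOpen.union (isOpen_iUnion fun i => isOpen_iUnion fun j => ?_)
    (IsOpen.union ?_ (IsOpen.inter (isOpen_iInter_of_finite fun i =>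
      isOpen_iInter_of_finite fun j => ?_) (IsOpen.inter ?_ ?_)))
  · by_cases hij : i < j
    · simp only [hij, true_and]
      exact isOpen_lt (by fun_prop) (by fun_prop)
    · simp [hij]
  · exact isOpen_lt (by fun_prop) (by fun_prop)
  · by_cases hij : i < j
    · simp only [hij, forall_true_left]
      exact isOpen_lt (by fun_prop) (by fun_prop)
    · simp [hij]
  · exact isOpen_lt (by fun_prop) (by fun_prop)
  · exact isOpen_lt (by fun_prop) (by fun_prop)

lemma OffWalls.eventually {α : Fin 5 → ℝ} (h : OffWalls α) :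
    ∀ᶠ n : ℕ in atTop, Off (1 / ((n : ℝ) + 1)) α := by
  have hsmall : ∀ c : ℝ, 0 < c → ∀ᶠ n : ℕ in atTop, 1 / ((n : ℝ) + 1) < c := fun c hc =>
    tendsto_one_div_add_atTop_nhds_zero_nat.eventually (gt_mem_nhds hc)
  rcases h with ⟨i, j, hij, h1⟩ | h1 | ⟨h1, h2, h3⟩
  · filter_upwards [hsmall (α i + α j - 1) (by linarith)] with n hn
    exact Or.inl ⟨i, j, hij, by linarith⟩
  · filter_upwards [hsmall (∑ i, α i - 2) (by linarith)] with n hn
    exact Or.inr (Or.inl (by linarith))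
  · have h4 : ∀ᶠ n : ℕ in atTop, ∀ i j : Fin 5, i < j → α i + α j < 1 - 1 / ((n : ℝ) + 1) := by
      rw [eventually_all]
      intro i
      rw [eventually_all]
      intro j
      by_cases hij : i < j
      · filter_upwards [hsmall (1 - (α i + α j)) (by linarith [h1 i j hij])] with n hn _
        linarith
      · exact Eventually.of_forall fun n h => absurd h hij
    filter_upwards [h4, hsmall (2 - ∑ i, α i) (by linarith),
      hsmall |∑ i, α i ^ 2 - 1| (abs_pos.2 (sub_ne_zero.2 h3))] with n h5 h6 h7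
    exact Or.inr (Or.inr ⟨h5, by linarith, h7⟩)

lemma Off.offWalls {α : Fin 5 → ℝ} {δ : ℝ} (hδ : 0 ≤ δ) (h : Off δ α) : OffWalls α := by
  rcases h with ⟨i, j, hij, h1⟩ | h1 | ⟨h1, h2, h3⟩
  · exact Or.inl ⟨i, j, hij, by linarith⟩
  · exact Or.inr (Or.inl (by linarith))
  · refine Or.inr (Or.inr ⟨fun i j hij => by linarith [h1 i j hij], by linarith, fun h4 => ?_⟩)
    rw [h4, sub_self, abs_zero] at h3
    linarith

lemma exists_delta {K : Set (Fin 5 → ℝ)} (hK : IsCompact K) (hoff : ∀ α ∈ K, OffWalls α) :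
    ∃ δ : ℝ, 0 < δ ∧ ∀ α ∈ K, Off δ α := by
  have hdir : Directed (· ⊆ ·) fun n : ℕ => {α : Fin 5 → ℝ | Off (1 / ((n : ℝ) + 1)) α} := by
    refine directed_of_isDirected_le fun a b hab α hα => ?_
    refine Off.mono ?_ hα
    have : (a : ℝ) ≤ b := by exact_mod_cast hab
    exact one_div_le_one_div_of_le (by positivity) (by linarith)
  obtain ⟨n, hn⟩ := hK.elim_directed_cover _ (fun n => isOpen_off _)
    (fun α hα => by
      obtain ⟨n, hn⟩ := (hoff α hα).eventually.exists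
      exact Set.mem_iUnion.2 ⟨n, hn⟩) hdir
  exact ⟨1 / ((n : ℝ) + 1), by positivity, fun α hα => hn hα⟩

lemma two_choose (n : ℕ) : ((n + 1).choose 2 : ℝ) = ((n : ℝ) ^ 2 + n) / 2 := by
  rw [Nat.cast_choose_two]
  push_cast
  ring

theorem eventually_off {m r : ℕ} {K : Set (Fin 5 → ℝ)} (hK : IsCompact K)
    (hoff : ∀ α ∈ K, OffWalls α) :
    ∀ᶠ d : ℕ in atTop, ∀ (a : Fin 5 → ℕ), direction (d, a) ∈ K →
      ∀ v : Fin r → ℕ, (∀ i, v i < m) → ¬ Window m v (d, a) := by
  obtain ⟨M, hM1, hM⟩ : ∃ M : ℝ, 1 ≤ M ∧ ∀ α ∈ K, ∀ i, |α i| ≤ M := by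
    obtain ⟨M, hM⟩ := hK.isBounded.exists_norm_le
    exact ⟨max M 1, le_max_right _ _, fun α hα i =>
      (norm_le_pi_norm α i).trans ((hM α hα).trans (le_max_left _ _))⟩
  obtain ⟨δ, hδ, hKδ⟩ := exists_delta hK hoff
  have hbig : ∀ c : ℝ, ∀ᶠ d : ℕ in atTop, c < d := fun c =>
    tendsto_natCast_atTop_atTop.eventually_gt_atTop c
  set R : ℝ := (r : ℝ) * ((m : ℝ) ^ 2 + m) with hR
  have hR0 : 0 ≤ R := by positivity
  filter_upwards [hbig 0, eventually_ge_atTop 1, hbig (2 / δ),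
    hbig ((2 * m ^ 2 + 3 * m + 3 : ℕ) / δ), hbig ((4 * m ^ 2 + 8 * m + 7 : ℕ) / δ),
    hbig ((7 * M + 2 * R + 2 * m + 8) / δ)] with d hd0 hd1 hda hdb hdc hdd a ha v hv hW
  rw [div_lt_iff₀ hδ] at hda hdb hdc hdd
  obtain ⟨h1, h2, h3⟩ := hW
  simp only at h1 h2 h3
  have hd1' : (1 : ℝ) ≤ d := by exact_mod_cast hd1
  rcases hKδ _ ha with ⟨i, j, hij, h4⟩ | h4 | ⟨h4, h5, h6⟩
  · have h5 : (a i : ℝ) + a j < d + 2 := by exact_mod_cast h1 i j hij
    simp only [direction] at h4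
    rw [← add_div, lt_div_iff₀ hd0] at h4
    linarith
  · have h5 : ∑ i, (a i : ℝ) < 2 * d + 2 := by exact_mod_cast h2
    simp only [direction] at h4
    rw [← Finset.sum_div, lt_div_iff₀ hd0] at h4
    linarith
  · rcases h3 with ⟨i, j, hij, h7⟩ | h7 | ⟨h7, i, h8⟩
    · have h8 := h4 i j hij
      simp only [direction] at h8
      rw [← add_div, div_lt_iff₀ hd0] at h8
      have h9 : (d : ℝ) < a i + a j + (2 * m ^ 2 + 3 * m + 3 : ℕ) := by exact_mod_cast h7
      linarith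
    · simp only [direction] at h5
      rw [← Finset.sum_div, div_lt_iff₀ hd0] at h5
      have h9 : 2 * (d : ℝ) < ∑ i, (a i : ℝ) + (4 * m ^ 2 + 8 * m + 7 : ℕ) := by exact_mod_cast h7
      linarith
    · simp only [direction] at h6
      have h9 : |∑ i, (a i : ℝ) ^ 2 - d ^ 2| = d ^ 2 * |∑ i, ((a i : ℝ) / d) ^ 2 - 1| := by
        rw [← abs_of_pos (show (0 : ℝ) < (d : ℝ) ^ 2 by positivity), ← abs_mul,
          abs_of_pos (show (0 : ℝ) < (d : ℝ) ^ 2 by positivity)]
        congr 1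
        simp only [div_pow]
        rw [← Finset.sum_div]
        field_simp
      have h10 : (d : ℝ) ^ 2 * δ ≤ |∑ i, (a i : ℝ) ^ 2 - d ^ 2| := by
        rw [h9]
        exact mul_le_mul_of_nonneg_left h6.le (by positivity)
      have haM : ∀ j, (a j : ℝ) ≤ M * d := by
        intro j
        have h11 := hM _ ha j
        simp only [direction] at h11
        rw [abs_of_nonneg (by positivity), div_le_iff₀ hd0] at h11
        exact h11
      have hsum : ∑ j, (a j : ℝ) ≤ 5 * (M * d) := by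
        calc ∑ j, (a j : ℝ) ≤ ∑ _j : Fin 5, M * d := Finset.sum_le_sum fun j _ => haM j
          _ = 5 * (M * d) := by simp
      have hsum0 : 0 ≤ ∑ j, (a j : ℝ) := by positivity
      have hσ : ((∑ j, (Fin.append v a j + 1).choose 2 : ℕ) : ℝ) =
          ∑ j, (((v j : ℝ) ^ 2 + v j) / 2) + (∑ j, (a j : ℝ) ^ 2 + ∑ j, (a j : ℝ)) / 2 := by
        push_cast
        rw [Fin.sum_univ_add]
        congr 1
        · refine Finset.sum_congr rfl fun j _ => ?_
          rw [Fin.append_left, two_choose]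
        · rw [← Finset.sum_add_distrib, Finset.sum_div]
          refine Finset.sum_congr rfl fun j _ => ?_
          rw [Fin.append_right, two_choose]
      have hv0 : 0 ≤ ∑ j, (((v j : ℝ) ^ 2 + v j) / 2) := by positivity
      have hvR : ∑ j, (((v j : ℝ) ^ 2 + v j) / 2) ≤ R := by
        calc ∑ j, (((v j : ℝ) ^ 2 + v j) / 2) ≤ ∑ _j : Fin r, ((m : ℝ) ^ 2 + m) := by
              refine Finset.sum_le_sum fun j _ => ?_
              have h11 : (v j : ℝ) ≤ m := by exact_mod_cast (hv j).le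
              have h12 : (0 : ℝ) ≤ v j := by positivity
              nlinarith
          _ = R := by
              simp [hR]
              ring
      have hD : (((d + 2).choose 2 : ℕ) : ℝ) = ((d : ℝ) ^ 2 + 3 * d + 2) / 2 := by
        have := two_choose (d + 1)
        rw [show d + 2 = d + 1 + 1 from rfl, this]
        push_cast
        ring
      have hw : ((Fin.append v a i : ℕ) : ℝ) ≤ m + M * d := by
        refine Fin.addCases (fun j => ?_) (fun j => ?_) i
        · rw [Fin.append_left]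
          have h11 : (v j : ℝ) ≤ m := by exact_mod_cast (hv j).le
          have : 0 ≤ M * d := by positivity
          linarith
        · rw [Fin.append_right]
          have := haM j
          have : (0 : ℝ) ≤ m := by positivity
          linarith
      have hm0 : (0 : ℝ) ≤ m := by positivity
      have hkey : (7 * M + 2 * R + 2 * m + 8) * d < δ * d ^ 2 := by nlinarith
      have hkey2 : 7 * (M * d) + 2 * R + 2 * m + 8 * d ≤ (7 * M + 2 * R + 2 * m + 8) * d := by
        nlinarith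
      have h4' : ((∑ j, (Fin.append v a j + 1).choose 2 : ℕ) : ℝ) <
          (((d + 2).choose 2 : ℕ) : ℝ) := by exact_mod_cast h7
      rw [hσ, hD] at h4'
      have hneg : ∑ i, (a i : ℝ) ^ 2 - d ^ 2 < 0 := by
        by_contra hcon
        push Not at hcon
        rw [abs_of_nonneg hcon] at h10
        have : 0 ≤ M * d := by positivity
        nlinarith
      rw [abs_of_neg hneg] at h10
      have hfin : (((d + 2).choose 2 : ℕ) : ℝ) ≤
          ((∑ j, (Fin.append v a j + 1).choose 2 : ℕ) : ℝ) + ((Fin.append v a i : ℕ) : ℝ) := by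
        exact_mod_cast h8
      rw [hσ, hD] at hfin
      linarith [h10, hfin, hw, hsum, hvR, hkey, hkey2, hd1', mul_comm δ ((d : ℝ) ^ 2)]

/-- **Main result.** (1) For all classes with `r` multiplicities `v_i < m` and five arbitrary multiplicities outside the
explicit window the statement Q1 holds at general points. (2) For all `m` and `r`, Q1 holds for all but finitely
many of the classes with directions in a compact set `K` off the walls, for all `v_i < m` simultaneously. (3) Every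
direction `ξ` off the walls has a neighbourhood with this property. -/
theorem result :
    (∀ (m r : ℕ), 1 ≤ m → ∀ v : Fin r → ℕ, (∀ i, v i < m) → ∀ x : ℕ × (Fin 5 → ℕ),
      ¬ Window m v x → Q1 v x) ∧
    (∀ K : Set (Fin 5 → ℝ), IsCompact K → (∀ α ∈ K, OffWalls α) → ∀ m r : ℕ,
      {x : ℕ × (Fin 5 → ℕ) | 1 ≤ x.1 ∧ direction x ∈ K ∧
        ∃ v : Fin r → ℕ, (∀ i, v i < m) ∧ ¬ Q1 v x}.Finite) ∧
    (∀ ξ : Fin 5 → ℝ, OffWalls ξ → ∃ U : Set (Fin 5 → ℝ), IsOpen U ∧ ξ ∈ U ∧ ∀ m r : ℕ,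
      {x : ℕ × (Fin 5 → ℕ) | 1 ≤ x.1 ∧ direction x ∈ U ∧
        ∃ v : Fin r → ℕ, (∀ i, v i < m) ∧ ¬ Q1 v x}.Finite) := by
  have h2 : ∀ K : Set (Fin 5 → ℝ), IsCompact K → (∀ α ∈ K, OffWalls α) → ∀ m r : ℕ,
      {x : ℕ × (Fin 5 → ℕ) | 1 ≤ x.1 ∧ direction x ∈ K ∧
        ∃ v : Fin r → ℕ, (∀ i, v i < m) ∧ ¬ Q1 v x}.Finite := by
    intro K hK hoff m r
    obtain ⟨d₀, hd₀⟩ := eventually_atTop.1 (eventually_off (m := m + 1) (r := r) hK hoff)
    obtain ⟨M, hM⟩ : ∃ M : ℝ, ∀ α ∈ K, ∀ i, |α i| ≤ M := by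
      obtain ⟨M, hM⟩ := hK.isBounded.exists_norm_le
      exact ⟨M, fun α hα i => (norm_le_pi_norm α i).trans (hM α hα)⟩
    refine ((Finset.Icc 0 d₀) ×ˢ
      (Fintype.piFinset fun _ : Fin 5 => Finset.Icc 0 ⌊|M| * d₀⌋₊)).finite_toSet.subset ?_
    rintro ⟨d, a⟩ ⟨h3, h4, v, hv, h5⟩
    have hd : d < d₀ := by
      by_contra hcon
      push Not at hcon
      have h6 := hd₀ d hcon a h4 v fun i => (hv i).trans (Nat.lt_succ_self m)
      exact h5 (q1_off_window (by omega) (fun i => (hv i).trans (Nat.lt_succ_self m)) _ h6)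
    rw [Finset.mem_coe, Finset.mem_product, Fintype.mem_piFinset]
    refine ⟨Finset.mem_Icc.2 ⟨Nat.zero_le _, hd.le⟩, fun j =>
      Finset.mem_Icc.2 ⟨Nat.zero_le _, Nat.le_floor ?_⟩⟩
    have h6 := hM _ h4 j
    have hd0 : (0 : ℝ) < d := by exact_mod_cast h3
    simp only [direction] at h6
    rw [abs_of_nonneg (by positivity), div_le_iff₀ hd0] at h6
    have h7 : (d : ℝ) ≤ d₀ := by exact_mod_cast hd.le
    calc (a j : ℝ) ≤ M * d := h6
      _ ≤ |M| * d := mul_le_mul_of_nonneg_right (le_abs_self M) hd0.le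
      _ ≤ |M| * d₀ := mul_le_mul_of_nonneg_left h7 (abs_nonneg M)
  refine ⟨fun m r hm v hv x hx => q1_off_window hm hv x hx, h2, fun ξ hξ => ?_⟩
  obtain ⟨n, hn⟩ := hξ.eventually.exists
  obtain ⟨ρ, hρ, hball⟩ := Metric.isOpen_iff.1 (isOpen_off (1 / ((n : ℝ) + 1))) ξ hn
  refine ⟨Metric.ball ξ (ρ / 2), Metric.isOpen_ball, Metric.mem_ball_self (by positivity),
    fun m r => ?_⟩
  refine (h2 (Metric.closedBall ξ (ρ / 2)) (isCompact_closedBall _ _)
    (fun α hα => Off.offWalls (by positivity : (0 : ℝ) ≤ 1 / ((n : ℝ) + 1)) (hball ?_)) m r).subset ?_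
  · rw [Metric.mem_ball]
    rw [Metric.mem_closedBall] at hα
    linarith
  · rintro x ⟨h3, h4, h5⟩
    exact ⟨h3, Metric.ball_subset_closedBall h4, h5⟩

end Pool.Agent.Results.MP_0421d9_ag.ConesOffTheWalls
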