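import Pool.Agent.Results.MP_0421d9_ag.AlmostAllClasses
import Pool.Agent.R505.SM.Vec

set_option autoImplicit false

/-!
# Smooth general members in EVERY degree, for most vectors of multiplicities

Let `v 1, …, v n ≤ M` be any multiplicities with `25000 (M + 3) ^ 2 ≤ ∑ v i`, and take `n + 1` general
points `P 0, …, P n` of the complex plane. For all `a ∈ {0, …, M}` but at most
`M / L + 1 + L (1 + M (M + 3) / (2 √(∑ v i ^ 2)))`, for any `L ≥ 1` (and at most `0.12 M + 19`), all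
the linear systems `|d H - a E 0 - ∑ v i E i|`, `d ≥ 1`, are empty, or of the expected dimension with a
general member which is smooth on the blow-up.

`AlmostAllClasses.each` shows that a vector with `∑ w i ≥ 25000 (M + 3) ^ 2`, `w i ≤ M`, is settled in
all degrees but those with `0 < χ ≤ max w i`. Here we bound the number of the `a` for which there is
such a degree (`Pool/Agent/R505/SM/Vec.lean`).
-/

namespace Pool.Agent.Results.MP_0421d9_ag.EveryDegreeMostVectors

open MvPolynomial Pool.Agent.H248R5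
open Pool.Agent.R505.SM (chi)
open Pool.Agent.Results.MP_0421d9_ag.AlmostAllClasses (Settled LargeSettled explicitPoints)

/-- For the vector `w` of multiplicities the linear systems of ALL degrees `d ≥ 1` are settled: each of
them is empty, or has the expected dimension `χ - 1 ≥ 0` and a general member which is smooth on the
blow-up. -/
def AllDegrees {n : ℕ} (P : Fin n → Fin 2 → ℂ) (w : Fin n → ℕ) : Prop :=
  ∀ d : ℕ, 1 ≤ d → Settled P d w

/-- The number of the `a ∈ {0, …, M}` such that the vector `(a, v)` is not settled in all degrees is at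
most `M / L + 1 + L (1 + M (M + 3) / (2 √(∑ v i ^ 2)))`, for every `L ≥ 1`, and at most
`0.12 M + 19`. -/
def FewValues {n : ℕ} (P : Fin (n + 1) → Fin 2 → ℂ) (M : ℕ) (v : Fin n → ℕ) : Prop :=
  (∀ L : ℕ, 1 ≤ L →
    (Set.ncard {a : ℕ | a ≤ M ∧ ¬ AllDegrees P (Fin.cons a v : Fin (n + 1) → ℕ)} : ℝ) ≤
      M / L + 1 + L * (1 + M * (M + 3) / (2 * √(∑ i, (v i : ℝ) ^ 2)))) ∧
  (Set.ncard {a : ℕ | a ≤ M ∧ ¬ AllDegrees P (Fin.cons a v : Fin (n + 1) → ℕ)} : ℝ) ≤
    12 / 100 * M + 19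

theorem cons_le {n M a : ℕ} {v : Fin n → ℕ} (hv : ∀ i, v i ≤ M) (ha : a ≤ M) :
    ∀ i, (Fin.cons a v : Fin (n + 1) → ℕ) i ≤ M := by
  intro i
  refine Fin.cases ?_ (fun j => ?_) i
  · rw [Fin.cons_zero]
    exact ha
  · rw [Fin.cons_succ]
    exact hv j

theorem chi_cons {n : ℕ} (a d : ℕ) (v : Fin n → ℕ) :
    chi d (Fin.cons a v : Fin (n + 1) → ℕ) = ((d + 2).choose 2 : ℤ) -
      (((a + 1).choose 2 : ℤ) + ((∑ i, (v i + 1).choose 2 : ℕ) : ℤ)) := by
  unfold chi
  rw [Fin.sum_univ_succ]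
  simp only [Fin.cons_zero, Fin.cons_succ]
  push_cast
  ring

theorem few_values {n M : ℕ} {v : Fin n → ℕ} (hv : ∀ i, v i ≤ M)
    (hbig : 25000 * (M + 3) ^ 2 ≤ ∑ i, v i) {P : Fin (n + 1) → Fin 2 → ℂ}
    (h : ∀ a : ℕ, a ≤ M → LargeSettled P (Fin.cons a v : Fin (n + 1) → ℕ) M) : FewValues P M v := by
  classical
  set R : ℝ := √(∑ i, (v i : ℝ) ^ 2) with hRdef
  have hsq0 : (0 : ℝ) ≤ ∑ i, (v i : ℝ) ^ 2 := Finset.sum_nonneg fun i _ => by positivity
  have hR2 : R ^ 2 = ∑ i, (v i : ℝ) ^ 2 := Real.sq_sqrt hsq0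
  have hR0 : 0 ≤ R := Real.sqrt_nonneg _
  -- `R` is large
  have hRbig : 158 * ((M : ℝ) + 3) ≤ R := by
    have h1 : ∑ i, v i ≤ ∑ i, v i ^ 2 := Finset.sum_le_sum fun i _ => Nat.le_self_pow (by norm_num) _
    have h2 : ((25000 * (M + 3) ^ 2 : ℕ) : ℝ) ≤ ((∑ i, v i ^ 2 : ℕ) : ℝ) := by
      exact_mod_cast hbig.trans h1
    push_cast at h2
    rw [← hR2] at h2
    by_contra hcon
    push Not at hcon
    have hM0 : (0 : ℝ) ≤ M := Nat.cast_nonneg _
    nlinarith
  have hM0 : (0 : ℝ) ≤ M := Nat.cast_nonneg _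
  have hRpos : 0 < R := by linarith
  have hs : R ^ 2 ≤ 2 * ((∑ i, (v i + 1).choose 2 : ℕ) : ℝ) := by
    rw [hR2]
    have h1 := Pool.Agent.R505.SM.sq_le v
    have h2 : ((∑ i, (v i : ℤ) ^ 2 : ℤ) : ℝ) ≤ ((2 * ∑ i, ((v i + 1).choose 2 : ℤ) : ℤ) : ℝ) := by
      exact_mod_cast h1
    push_cast at h2
    push_cast
    exact h2
  set B : Finset ℕ := (Finset.range (M + 1)).filter
    (fun a => ¬ AllDegrees P (Fin.cons a v : Fin (n + 1) → ℕ)) with hB
  have hset : {a : ℕ | a ≤ M ∧ ¬ AllDegrees P (Fin.cons a v : Fin (n + 1) → ℕ)} = ↑B := by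
    ext a
    simp only [hB, Set.mem_ofPred_eq, Finset.coe_filter, Finset.mem_range]
    rw [Nat.lt_succ_iff]
  have key : ∀ L : ℕ, 1 ≤ L → (B.card : ℝ) ≤ M / L + 1 + L * (1 + M * (M + 3) / (2 * R)) := by
    intro L hL
    refine Pool.Agent.R505.SM.few_a hL hRpos hs B fun a ha => ?_
    obtain ⟨h1, h2⟩ := Finset.mem_filter.1 ha
    have haM : a ≤ M := by
      have := Finset.mem_range.1 h1
      omega
    refine ⟨haM, ?_⟩
    unfold AllDegrees at h2
    push Not at h2
    obtain ⟨d, hd, hns⟩ := h2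
    have h3 := (h a haM).window (cons_le hv haM) hd hns
    have h4 : 25000 * ((M : ℤ) + 3) ^ 2 ≤
        ∑ i, ((Fin.cons a v : Fin (n + 1) → ℕ) i : ℤ) := by
      rw [Fin.sum_univ_succ]
      simp only [Fin.cons_zero, Fin.cons_succ]
      have h5 : ((25000 * (M + 3) ^ 2 : ℕ) : ℤ) ≤ ((∑ i, v i : ℕ) : ℤ) := by exact_mod_cast hbig
      push_cast at h5
      have h6 : (0 : ℤ) ≤ a := by positivity
      linarith
    have h5 := h3.resolve_left (by
      have := abs_nonneg (chi d (Fin.cons a v : Fin (n + 1) → ℕ))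
      linarith)
    rw [chi_cons] at h5
    exact ⟨d, h5⟩
  unfold FewValues
  rw [hset, Set.ncard_coe_finset]
  refine ⟨key, ?_⟩
  have h1 := key 18 (by norm_num)
  have h2 : (M : ℝ) * (M + 3) / (2 * R) ≤ M / 316 := by
    rw [div_le_div_iff₀ (by positivity) (by norm_num)]
    nlinarith
  push_cast at h1
  linarith

/-- **Main result.** Let `v 1, …, v n ≤ M` be any multiplicities with `25000 (M + 3) ^ 2 ≤ ∑ v i`. For
`n + 1` general points and for all but few of the values `a ∈ {0, …, M}`: the linear systems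
`|d H - a E 0 - ∑ v i E i|` of ALL degrees `d ≥ 1` are empty, or of the expected dimension with a general
member which is smooth on the blow-up. At the explicit points, and at all points with algebraically
independent coordinates, this holds for all `M` and `v` at once. -/
theorem result :
    (∀ (n M : ℕ) (v : Fin n → ℕ), (∀ i, v i ≤ M) → 25000 * (M + 3) ^ 2 ≤ ∑ i, v i →
      ∃ F : MvPolynomial (Fin (n + 1) × Fin 2) ℂ, F ≠ 0 ∧ ∀ P : Fin (n + 1) → Fin 2 → ℂ,
        eval (fun ij : Fin (n + 1) × Fin 2 => P ij.1 ij.2) F ≠ 0 → FewValues P M v) ∧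
    ∀ (n : ℕ) (P : Fin (n + 1) → Fin 2 → ℂ), (P = explicitPoints (n + 1) ∨
        AlgebraicIndependent ℚ (fun ij : Fin (n + 1) × Fin 2 => P ij.1 ij.2)) →
      ∀ (M : ℕ) (v : Fin n → ℕ), (∀ i, v i ≤ M) → 25000 * (M + 3) ^ 2 ≤ ∑ i, v i →
        FewValues P M v := by
  classical
  refine ⟨fun n M v hv hbig => ?_, fun n P hP M v hv hbig => ?_⟩
  · choose F hF hF' using fun w : Fin (n + 1) → ℕ =>
      Pool.Agent.Results.MP_0421d9_ag.AlmostAllClasses.each w
    refine ⟨(∏ a ∈ Finset.range (M + 1), F (Fin.cons a v)).map (algebraMap ℚ ℂ),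
      Pool.Agent.H932R3.map_ne_zero_of (Finset.prod_ne_zero_iff.2 fun a _ => hF _), fun P hP => ?_⟩
    refine few_values hv hbig fun a ha => hF' _ P ?_ M (cons_le hv ha)
    intro h0
    apply hP
    rw [MvPolynomial.eval_map]
    have h1 : MvPolynomial.aeval (fun ij : Fin (n + 1) × Fin 2 => P ij.1 ij.2)
        (∏ a ∈ Finset.range (M + 1), F (Fin.cons a v)) = 0 := by
      rw [map_prod]
      exact Finset.prod_eq_zero (Finset.mem_range.2 (by omega)) h0
    exact h1
  · have hP0 : AlgebraicIndependent ℚ (fun ij : Fin (n + 1) × Fin 2 => P ij.1 ij.2) := by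
      rcases hP with rfl | hP
      · exact Pool.Agent.R66.BX.explicit_indep (by omega)
      · exact hP
    refine few_values hv hbig fun a ha => ?_
    obtain ⟨F, hF, hF'⟩ :=
      Pool.Agent.Results.MP_0421d9_ag.AlmostAllClasses.each (Fin.cons a v : Fin (n + 1) → ℕ)
    exact hF' P (fun h0 => hF ((algebraicIndependent_iff.1 hP0) F h0)) M (cons_le hv ha)

end Pool.Agent.Results.MP_0421d9_ag.EveryDegreeMostVectors
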