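import Pool.Agent.R66.BX.Smooth5

set_option autoImplicit false

/-!
# Reduced systems outside of a short window of degrees, for five arbitrary multiplicities

Let `m ≥ 1`, let `v 1, …, v r < m` be any number of multiplicities, and let `a 1, …, a 5` be five
arbitrary ones. Let `α` be the least number with `a i + a j ≤ α + 1` for `i ≠ j` and
`a 1 + … + a 5 ≤ 2 α + 1`. There is a degree `d₀` such that Q1 holds for the systems of degree `d`
with these `r + 5` multiplicities at general points of the complex projective plane for all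
`d ≠ d₀` which are not in the window `α ≤ d < α + 2 m ^ 2 + 4 m + 4`: if some member is given by a
squarefree form, in particular if the general member is reduced, then the system has the expected
dimension and its general member is smooth on the blow-up. The length of the window depends neither
on the number `r` of the points nor on the five arbitrary multiplicities.
-/

namespace Pool.Agent.Results.MP_0421d9_ag.ShortDegreeWindow

open MvPolynomial Pool.Agent.R66.BX.Five Pool.Agent.R66.BX.Smooth5 Pool.Agent.H248R5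

/-- Q1 for the class of degree `d` with the multiplicities `w`, for general points: if some element
of the system is squarefree, then the system has the expected dimension, and its general member is
smooth on the blow-up. -/
def Q1 {n : ℕ} (d : ℕ) (w : Fin n → ℕ) : Prop :=
  ∃ F : MvPolynomial (Fin n × Fin 2) ℚ, F ≠ 0 ∧ ∀ P : Fin n → Fin 2 → ℂ,
    MvPolynomial.aeval (fun ij : Fin n × Fin 2 => P ij.1 ij.2) F ≠ 0 →
      (∃ f ∈ forms w P d, Squarefree f) →
        Module.finrank ℂ ↥(forms w P d) + ∑ i, (w i + 1).choose 2 = (d + 2).choose 2 ∧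
          GeneralMember (forms w P d) (SmoothMember w P)

theorem choose_step (d : ℕ) : (d + 3).choose 2 = (d + 2) + (d + 2).choose 2 := by
  rw [Nat.choose_succ_succ' (d + 2) 1, Nat.choose_one_right]

/-- **Main result.** -/
theorem result (m r : ℕ) (hm : 1 ≤ m) (v : Fin r → ℕ) (hv : ∀ i, v i < m) (a : Fin 5 → ℕ) (α : ℕ)
    (hα : IsLeast {x : ℕ | (∀ i j, i ≠ j → a i + a j ≤ x + 1) ∧ ∑ i, a i ≤ 2 * x + 1} α) :
    ∃ d₀ : ℕ, ∀ d : ℕ, d ≠ d₀ → (d < α ∨ α + (2 * m ^ 2 + 4 * m + 4) ≤ d) →
      Q1 d (Fin.append v a) := by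
  classical
  obtain ⟨⟨h1, h2⟩, hmin⟩ := hα
  obtain ⟨σ, hσ⟩ : ∃ σ, σ = ∑ i, (Fin.append v a i + 1).choose 2 := ⟨_, rfl⟩
  obtain ⟨N, hN⟩ : ∃ N, N = 2 * m ^ 2 + 4 * m + 4 := ⟨_, rfl⟩
  rw [← hN]
  have hmm : m ≤ m ^ 2 := by nlinarith
  -- the degrees above the window with small expected dimension
  obtain ⟨T, hT⟩ : ∃ T : ℕ → Prop, T = fun d => α + N ≤ d ∧ σ < (d + 2).choose 2 ∧
    ∃ i, (d + 2).choose 2 ≤ σ + Fin.append v a i := ⟨_, rfl⟩
  have hmul : ∀ d, α + N ≤ d → ∀ i, Fin.append v a i ≤ d := by
    intro d hd i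
    refine Fin.addCases (fun j => ?_) (fun k => ?_) i
    · rw [Fin.append_left]
      have := hv j
      omega
    · rw [Fin.append_right]
      obtain ⟨l, hl⟩ : ∃ l : Fin 5, k ≠ l := by
        by_cases h0 : k = 0
        · exact ⟨1, by rw [h0]; decide⟩
        · exact ⟨0, h0⟩
      have := h1 k l hl
      omega
  have key : ∀ x y, T x → T y → ¬ x < y := by
    intro x y hx hy hxy
    rw [hT] at hx hy
    obtain ⟨hx1, hx2, -⟩ := hx
    obtain ⟨-, -, i, hi⟩ := hy
    have h4 := hmul x hx1 i
    have h5 : (x + 3).choose 2 ≤ (y + 2).choose 2 := Nat.choose_le_choose 2 (by omega)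
    rw [choose_step] at h5
    omega
  obtain ⟨d₀, hd₀⟩ : ∃ d₀, ∀ d, T d → d = d₀ := by
    by_cases hex : ∃ d, T d
    · obtain ⟨d₀, h0⟩ := hex
      refine ⟨d₀, fun d hd => ?_⟩
      rcases lt_trichotomy d d₀ with h | h | h
      · exact absurd h (key d d₀ hd h0)
      · exact h
      · exact absurd h (key d₀ d h0 hd)
    · push Not at hex
      exact ⟨0, fun d hd => absurd hd (hex d)⟩
  refine ⟨d₀, fun d hne hd => ?_⟩
  suffices hmain : ForGeneral (Q1At d (Fin.append v a)) from hmain
  rcases hd with hd | hd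
  · by_cases h3 : ∃ i j, i ≠ j ∧ d + 2 ≤ a i + a j
    · obtain ⟨i, j, hij, h⟩ := h3
      refine line_dblN ⟨r + 1, by omega⟩ (w := Fin.append v a) (i := Fin.natAdd r i)
        (j := Fin.natAdd r j) (natAdd_ne hij) ?_
      have e1 : Fin.append v a (Fin.natAdd r i) = a i := Fin.append_right _ _ _
      have e2 : Fin.append v a (Fin.natAdd r j) = a j := Fin.append_right _ _ _
      calc d + 2 ≤ a i + a j := h
        _ = Fin.append v a (Fin.natAdd r i) + Fin.append v a (Fin.natAdd r j) := by rw [e1, e2]
    · push Not at h3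
      by_cases h4 : 2 * d + 2 ≤ ∑ i, a i
      · exact conic_dbl h4
      · exfalso
        have h5 : α ≤ d := hmin ⟨fun i j hij => by
          have := h3 i j hij
          omega, by omega⟩
        omega
  · refine q1_of hm hv a (fun i j hij => ?_) (Or.inl (by omega)) (fun _ hpos i => ?_)
    · left
      have := h1 i j hij.ne
      omega
    · rw [← hσ] at hpos ⊢
      by_contra hcon
      push Not at hcon
      apply hne
      apply hd₀
      rw [hT]
      exact ⟨hd, hpos, i, hcon⟩

end Pool.Agent.Results.MP_0421d9_ag.ShortDegreeWindow
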